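import Pool.Agent.W2helper40.DZ.Basic

set_option autoImplicit false

/-!
# The purely periodic continued fraction of a word of even length
-/

namespace Pool.Agent.W2helper40.CH

open Pool.Agent.W2helper40.DZ

/-- `[a_0, …, a_m, x]` -/
noncomputable def ev (w : List ℕ) (x : ℝ) : ℝ := w.foldr (fun a y => a + 1 / y) x

theorem ev_nil (x : ℝ) : ev [] x = x := rfl
theorem ev_cons (a : ℕ) (w : List ℕ) (x : ℝ) : ev (a :: w) x = a + 1 / ev w x := rfl

theorem ev_gt {z : ℕ} {w : List ℕ} (h : Ok z w) {x : ℝ} (hx : 1 < x) : 1 < ev w x := by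
  induction w with
  | nil => exact hx
  | cons a w ih =>
    have h1 := ih fun b hb => h b (by simp [hb])
    have ha : (1:ℝ) ≤ a := by exact_mod_cast (h a (by simp)).1
    rw [ev_cons]
    have : 0 < 1 / ev w x := by positivity
    linarith

theorem ev_inj {z : ℕ} {u w : List ℕ} (hu : Ok z u) (hw : Ok z w) {x : ℝ} (hx : 1 < x)
    (hl : u.length = w.length) (h : ev u x = ev w x) : u = w := by
  induction u generalizing w with
  | nil => exact (List.length_eq_zero_iff.1 hl.symm).symm
  | cons a u ih =>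
    cases w with
    | nil => simp at hl
    | cons b w =>
      rw [ev_cons, ev_cons] at h
      have hu' : Ok z u := fun c hc => hu c (by simp [hc])
      have hw' : Ok z w := fun c hc => hw c (by simp [hc])
      have h1 := ev_gt hu' hx
      have h2 := ev_gt hw' hx
      have f1 : 1 / ev u x < 1 := (div_lt_one (by linarith)).2 h1
      have f2 : 1 / ev w x < 1 := (div_lt_one (by linarith)).2 h2
      have g1 : 0 < 1 / ev u x := by positivity
      have g2 : 0 < 1 / ev w x := by positivity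
      have hab : a = b := by
        have e1 : (a : ℝ) < b + 1 := by linarith
        have e2 : (b : ℝ) < a + 1 := by linarith
        have e3 : a < b + 1 := by exact_mod_cast e1
        have e4 : b < a + 1 := by exact_mod_cast e2
        omega
      subst hab
      have h3 : 1 / ev u x = 1 / ev w x := by linarith
      have h4 : ev u x = ev w x := by
        have := congrArg (fun t => 1 / t) h3
        simpa using this
      rw [ih hu' hw' (by simpa using hl) h4]

theorem ev_eq {w : List ℕ} {x : ℝ} (hx : 0 < x) :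
    0 < (F (1 / x) 1 w).1 ∧ 0 < (F (1 / x) 1 w).2 ∧
      ev w x = (F (1 / x) 1 w).2 / (F (1 / x) 1 w).1 := by
  induction w with
  | nil => simp [F, ev_nil, hx]
  | cons a w ih =>
    obtain ⟨h1, h2, h3⟩ := ih
    have h4 : (F (1 / x) (1:ℝ) (a :: w)).1 = (F (1 / x) 1 w).2 := rfl
    have h5 : (F (1 / x) (1:ℝ) (a :: w)).2 = (a : ℝ) * (F (1 / x) 1 w).2 + (F (1 / x) 1 w).1 := rfl
    rw [h4, h5, ev_cons, h3]
    refine ⟨h2, by positivity, ?_⟩
    field_simp

theorem det_even {w : List ℕ} (k : ℕ) (h : w.length = 2 * k) :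
    (q w : ℤ) * p' w - p w * q' w = 1 := by
  have key : ∀ w : List ℕ, (q w : ℤ) * p' w - p w * q' w = (-1) ^ w.length := by
    intro w
    induction w with
    | nil => simp [q_nil, p'_nil, p_nil, q'_nil]
    | cons a w ih =>
      rw [q_cons, p'_cons, p_cons, q'_cons, List.length_cons, pow_succ, ← ih]
      push_cast
      ring
  rw [key, h, pow_mul]
  norm_num

theorem root {P P' Q Q' s x : ℝ} (hp : 0 < P) (hs : s ^ 2 = (Q - P') ^ 2 + 4 * (P * Q'))
    (hx : x = (Q - P' + s) / (2 * P)) : P * x ^ 2 + (P' - Q) * x - Q' = 0 := by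
  have h1 : x * (2 * P) = Q - P' + s := by
    rw [hx]; field_simp
  have h2 : (4 * P) * (P * x ^ 2 + (P' - Q) * x - Q') = 0 := by
    have : (4 * P) * (P * x ^ 2 + (P' - Q) * x - Q') =
      (x * (2 * P)) ^ 2 - 2 * (Q - P') * (x * (2 * P)) - 4 * (P * Q') := by ring
    rw [this, h1]
    have e : (Q - P' + s) ^ 2 - 2 * (Q - P') * (Q - P' + s) - 4 * (P * Q') =
      s ^ 2 - (Q - P') ^ 2 - 4 * (P * Q') := by ring
    rw [e, hs]; ring
  rcases mul_eq_zero.1 h2 with h3 | h3
  · exact absurd h3 (by positivity)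
  · exact h3

theorem fix_eq {P P' Q Q' x : ℝ} (hx : 0 < x) (h : P * x ^ 2 + (P' - Q) * x - Q' = 0) :
    1 / x * Q' + 1 * Q = x * (1 / x * P' + 1 * P) := by
  have h1 : x * (1 / x) = 1 := by field_simp
  have h2 : x * (1 / x * Q' + 1 * Q) = x * (x * (1 / x * P' + 1 * P)) := by
    calc x * (1 / x * Q' + 1 * Q) = (x * (1 / x)) * Q' + x * Q := by ring
      _ = x * ((x * (1 / x)) * P' + x * P) := by rw [h1]; linarith
      _ = x * (x * (1 / x * P' + 1 * P)) := by ring
  exact mul_left_cancel₀ hx.ne' h2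

/-- the fixed point -/
theorem fixed {z k : ℕ} {w : List ℕ} (h : Ok z w) (hl : w.length = 2 * k) (hk : 0 < k) :
    ∃ x : ℝ, 1 < x ∧ ev w x = x ∧ 3 ≤ p' w + q w ∧
      ∃ a b : ℚ, x = a + b * √(((p' w + q w) ^ 2 - 4 : ℕ) : ℝ) := by
  obtain ⟨a, w1, rfl⟩ : ∃ a w1, w = a :: w1 := by
    cases w with
    | nil => simp at hl; omega
    | cons a w1 => exact ⟨a, w1, rfl⟩
  obtain ⟨b, u, rfl⟩ : ∃ b u, w1 = b :: u := by
    cases w1 with
    | nil => simp at hl; omega
    | cons b u => exact ⟨b, u, rfl⟩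
  have hd := det_even k hl
  have ha : 1 ≤ a := (h a (by simp)).1
  have hb : 1 ≤ b := (h b (by simp)).1
  have hu : Ok z u := fun c hc => h c (by simp [hc])
  have bu := bounds hu
  -- positivity of the entries
  have hp : 1 ≤ p (a :: b :: u) := by
    rw [p_cons, q_cons]
    have := bu.2.2.2.2
    nlinarith
  have hq' : 1 ≤ q' (a :: b :: u) := by
    rw [q'_cons, p'_cons, q'_cons]
    have h1 : 1 ≤ b * q' u + p' u := by
      rcases Nat.eq_zero_or_pos (q' u) with h0 | h0
      · have hdu := det u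
        rw [h0] at hdu
        rcases Nat.eq_zero_or_pos (p' u) with h00 | h00
        · rw [h00] at hdu; simp at hdu
        · omega
      · nlinarith
    nlinarith
  set w := a :: b :: u with hw
  set P := p w with hP
  set Q := q w with hQ
  set P' := p' w with hP'
  set Q' := q' w with hQ'
  have hQP : 1 ≤ Q := (bounds h).2.2.2.2
  have hPP : (Q : ℤ) * P' = 1 + P * Q' := by linarith
  have hP'1 : 1 ≤ P' := by
    by_contra hc
    have : P' = 0 := by omega
    rw [this] at hPP
    have : (0:ℤ) ≤ P * Q' := by positivity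
    simp at hPP
    linarith
  have ht3 : 3 ≤ P' + Q := by
    by_contra hc
    have h1 : P' = 1 := by omega
    have h2 : Q = 1 := by omega
    rw [h1, h2] at hPP
    have : (1:ℤ) ≤ P * Q' := by
      have a1 : (1:ℤ) ≤ P := by exact_mod_cast hp
      have a2 : (1:ℤ) ≤ Q' := by exact_mod_cast hq'
      nlinarith
    push_cast at hPP
    linarith
  have hcast : (((P' + Q) ^ 2 - 4 : ℕ) : ℝ) = ((P' : ℝ) + Q) ^ 2 - 4 := by
    rw [Nat.cast_sub (by nlinarith)]
    push_cast; ring
  have hPPr : (Q : ℝ) * P' = 1 + P * Q' := by exact_mod_cast hPP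
  have hp1 : (1:ℝ) ≤ P := by exact_mod_cast hp
  have hq1 : (1:ℝ) ≤ Q' := by exact_mod_cast hq'
  set D : ℝ := ((P' : ℝ) + Q) ^ 2 - 4 with hD
  have hDe : D = ((Q : ℝ) - P') ^ 2 + 4 * (P * Q') := by rw [hD]; linear_combination 4 * hPPr
  have hD0 : 0 ≤ D := by rw [hDe]; positivity
  have hs : √D ^ 2 = D := Real.sq_sqrt hD0
  have hs0 : 0 ≤ √D := Real.sqrt_nonneg _
  set x : ℝ := ((Q : ℝ) - P' + √D) / (2 * P) with hx
  have hx0 : 0 < x := by
    rw [hx]
    apply div_pos _ (by positivity)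
    have : |(Q : ℝ) - P'| < √D := by
      apply abs_lt_of_sq_lt_sq _ hs0
      rw [hs, hDe]
      have : 0 < 4 * ((P:ℝ) * Q') := by positivity
      linarith
    have := neg_abs_le ((Q : ℝ) - P')
    linarith
  have hroot : (P : ℝ) * x ^ 2 + (P' - Q) * x - Q' = 0 :=
    root (by linarith) (by rw [hs, hDe]) hx
  have hev : ev w x = x := by
    obtain ⟨h1, h2, h3⟩ := ev_eq (w := w) hx0
    rw [h3, div_eq_iff h1.ne']
    rw [(F_real _ _ w).1, (F_real _ _ w).2]
    exact fix_eq hx0 hroot
  have hx1 : 1 < x := by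
    rw [← hev, hw, ev_cons]
    have h1 : (1:ℝ) ≤ a := by exact_mod_cast ha
    have h2 : 0 < ev (b :: u) x := by
      obtain ⟨g1, g2, g3⟩ := ev_eq (w := b :: u) hx0
      rw [g3]; positivity
    have : 0 < 1 / ev (b :: u) x := by positivity
    linarith
  refine ⟨x, hx1, hev, ht3, ((Q : ℚ) - P') / (2 * P), 1 / (2 * P), ?_⟩
  rw [hcast, hx]
  push_cast
  field_simp

end Pool.Agent.W2helper40.CH
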