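import Pool.Agent.W2helper40.CH.Sum
import Pool.Agent.W2helper40.CH.Fix

set_option autoImplicit false

/-!
# Many periodic continued fractions in one real quadratic field
-/

namespace Pool.Agent.W2helper40.CH

open Pool.Agent.W2helper40.DZ Filter Topology

theorem pigeon (k : ℕ) : ∃ t : ℕ, (1009 / 1000 : ℝ) ^ k / (6 * (1 + Real.log (3 * 7 ^ k))) ≤
    ((Finset.univ.filter fun f : Fin k → Bool × Bool => tr (wd k f) = t).card : ℝ) := by
  by_contra hc
  push Not at hc
  set R : ℝ := (1009 / 1000 : ℝ) ^ k / (6 * (1 + Real.log (3 * 7 ^ k))) with hR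
  have hT : (1:ℝ) ≤ 3 * 7 ^ k := by
    have : (1:ℝ) ≤ 7 ^ k := one_le_pow₀ (by norm_num)
    linarith
  have hL : 0 < 1 + Real.log (3 * 7 ^ k) := by
    have := Real.log_nonneg hT
    linarith
  have hR0 : 0 ≤ R := by rw [hR]; positivity
  have h1 : (1009 / 1000 : ℝ) ^ k / 3 ≤ ∑ f : Fin k → Bool × Bool, 1 / (tr (wd k f) : ℝ) := by
    calc (1009 / 1000 : ℝ) ^ k / 3 ≤ (∑ f : Fin k → Bool × Bool, 1 / (V (wd k f)).2) / 3 := by
          have := sum_ge k
          linarith
      _ = ∑ f : Fin k → Bool × Bool, 1 / (3 * (V (wd k f)).2) := by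
          rw [Finset.sum_div]
          refine Finset.sum_congr rfl fun f _ => ?_
          rw [one_div, one_div, mul_inv, div_eq_mul_inv, mul_comm]
      _ ≤ _ := by
          refine Finset.sum_le_sum fun f _ => ?_
          have h2 := tr_le (wd_ok k f)
          have h3 : (1:ℝ) ≤ tr (wd k f) := by
            have := (bounds (wd_ok k f)).2.2.2.2
            have h4 : 1 ≤ tr (wd k f) := by unfold tr; omega
            exact_mod_cast h4
          exact one_div_le_one_div_of_le (by linarith) h2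
  have h2 : ∑ f : Fin k → Bool × Bool, 1 / (tr (wd k f) : ℝ) ≤
      R * (1 + Real.log (3 * 7 ^ k)) := by
    have hmaps : ∀ f ∈ (Finset.univ : Finset (Fin k → Bool × Bool)),
        tr (wd k f) ∈ Finset.Icc (1 : ℕ) (3 * 7 ^ k) := by
      intro f _
      rw [Finset.mem_Icc]
      constructor
      · have := (bounds (wd_ok k f)).2.2.2.2
        unfold tr; omega
      · have h2 := (tr_le (wd_ok k f)).trans (by linarith [V_le k f] : 3 * (V (wd k f)).2 ≤ 3 * 7 ^ k)
        exact_mod_cast h2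
    rw [← Finset.sum_fiberwise_of_maps_to hmaps]
    calc ∑ t ∈ Finset.Icc (1 : ℕ) (3 * 7 ^ k), ∑ f with tr (wd k f) = t, 1 / (tr (wd k f) : ℝ)
        ≤ ∑ t ∈ Finset.Icc (1 : ℕ) (3 * 7 ^ k), R * (t : ℝ)⁻¹ := by
          refine Finset.sum_le_sum fun t ht => ?_
          have e1 : ∑ f with tr (wd k f) = t, 1 / (tr (wd k f) : ℝ) =
              ∑ f : Fin k → Bool × Bool with tr (wd k f) = t, (t : ℝ)⁻¹ := by
            refine Finset.sum_congr rfl fun f hf => ?_
            rw [(Finset.mem_filter.1 hf).2, one_div]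
          rw [e1, Finset.sum_const, nsmul_eq_mul]
          exact mul_le_mul_of_nonneg_right (hc t).le (by positivity)
      _ = R * ∑ t ∈ Finset.Icc (1 : ℕ) (3 * 7 ^ k), (t : ℝ)⁻¹ := by rw [Finset.mul_sum]
      _ ≤ R * (1 + Real.log (3 * 7 ^ k)) := by
          refine mul_le_mul_of_nonneg_left ?_ hR0
          have h3 := harmonic_le_one_add_log (3 * 7 ^ k)
          rw [harmonic_eq_sum_Icc] at h3
          push_cast at h3 ⊢
          exact h3
  have h3 : R * (1 + Real.log (3 * 7 ^ k)) = (1009 / 1000 : ℝ) ^ k / 6 := by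
    rw [hR]; field_simp
  have h4 : (0:ℝ) < (1009 / 1000 : ℝ) ^ k := by positivity
  linarith

theorem not_square {t : ℕ} (ht : 3 ≤ t) : ¬ IsSquare (t ^ 2 - 4) := by
  rintro ⟨r, hr⟩
  obtain ⟨s, rfl⟩ := Nat.exists_eq_add_of_le ht
  have h1 : r * r + 4 = (3 + s) ^ 2 := by
    have : 4 ≤ (3 + s) ^ 2 := by nlinarith
    omega
  rcases Nat.lt_or_ge r (3 + s) with h | h
  · have : r ≤ 2 + s := by omega
    nlinarith
  · nlinarith

theorem main : ∃ c : ℝ, 0 < c ∧ ∃ L : ℕ, ∀ l : ℕ, L ≤ l → ∃ d : ℕ, ¬ IsSquare d ∧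
    ∃ S : Finset ℝ, Real.exp (c * l) ≤ S.card ∧ ∀ x ∈ S, 1 < x ∧
      (∃ a b : ℚ, x = a + b * √(d : ℝ)) ∧
      ∃ w : List ℕ, w ≠ [] ∧ w.length ≤ l ∧ (∀ a ∈ w, 1 ≤ a ∧ a ≤ 2) ∧ ev w x = x := by
  classical
  set c : ℝ := Real.log (1009 / 1000) / 4 with hc
  have hlog : 0 < Real.log (1009 / 1000) := Real.log_pos (by norm_num)
  have hc0 : 0 < c := by rw [hc]; positivity
  set r : ℝ := Real.exp (2 * c) with hr
  have hr1 : 1 < r := by rw [hr]; exact Real.one_lt_exp_iff.2 (by positivity)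
  have hr2 : r * r = 1009 / 1000 := by
    rw [hr, ← Real.exp_add, show 2 * c + 2 * c = Real.log (1009 / 1000) by rw [hc]; ring,
      Real.exp_log (by norm_num)]
  set A : ℝ := 6 * Real.exp c * (1 + Real.log 3 + Real.log 7) with hA
  have hl3 : 0 < Real.log 3 := Real.log_pos (by norm_num)
  have hl7 : 0 < Real.log 7 := Real.log_pos (by norm_num)
  have hA0 : 0 < A := by rw [hA]; positivity
  have ht := tendsto_pow_const_div_const_pow_of_one_lt 1 hr1
  obtain ⟨K, hK⟩ := eventually_atTop.1 (ht.eventually_lt_const (u := 1 / A) (by positivity))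
  refine ⟨c, hc0, 2 * (K + 1) + 1, fun l hl => ?_⟩
  set k := l / 2 with hk
  have hkl : 2 * k ≤ l := by omega
  have hlk : l ≤ 2 * k + 1 := by omega
  have hkK : K ≤ k := by omega
  have hk1 : 1 ≤ k := by omega
  obtain ⟨t, ht⟩ := pigeon k
  have hexist : ∀ f : Fin k → Bool × Bool, ∃ x : ℝ, 1 < x ∧ ev (wd k f) x = x ∧
      3 ≤ p' (wd k f) + q (wd k f) ∧
      ∃ a b : ℚ, x = a + b * √(((p' (wd k f) + q (wd k f)) ^ 2 - 4 : ℕ) : ℝ) := fun f =>
    fixed (wd_ok k f) (wd_length k f) hk1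
  choose X hX1 hX2 hX3 hX4 using hexist
  set Fs := Finset.univ.filter fun f : Fin k → Bool × Bool => tr (wd k f) = t with hFs
  have hbig : Real.exp (c * l) ≤ (1009 / 1000 : ℝ) ^ k / (6 * (1 + Real.log (3 * 7 ^ k))) := by
    have h1 : Real.log (3 * 7 ^ k) = Real.log 3 + k * Real.log 7 := by
      rw [Real.log_mul (by norm_num) (by positivity), Real.log_pow]
    have hkr : (1:ℝ) ≤ k := by exact_mod_cast hk1
    have h2 : 6 * Real.exp c * (1 + Real.log (3 * 7 ^ k)) ≤ A * k := by
      rw [h1, hA]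
      have e0 : 0 < 6 * Real.exp c := by positivity
      have : 1 + (Real.log 3 + k * Real.log 7) ≤ (1 + Real.log 3 + Real.log 7) * k := by nlinarith
      calc 6 * Real.exp c * (1 + (Real.log 3 + k * Real.log 7))
          ≤ 6 * Real.exp c * ((1 + Real.log 3 + Real.log 7) * k) :=
            mul_le_mul_of_nonneg_left this e0.le
        _ = _ := by ring
    have h3 : A * k ≤ r ^ k := by
      have h4 := hK k hkK
      rw [pow_one, div_lt_div_iff₀ (by positivity) hA0] at h4
      linarith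
    have h5 : Real.exp (c * l) ≤ Real.exp c * r ^ k := by
      rw [hr, ← Real.exp_nat_mul, ← Real.exp_add]
      apply Real.exp_le_exp.2
      have : (l : ℝ) ≤ 2 * k + 1 := by exact_mod_cast hlk
      nlinarith
    have h6 : (1009 / 1000 : ℝ) ^ k = r ^ k * r ^ k := by rw [← mul_pow, hr2]
    have hL : 0 < 1 + Real.log (3 * 7 ^ k) := by rw [h1]; positivity
    rw [le_div_iff₀ (by positivity), h6]
    have hrk : 0 < r ^ k := by positivity
    calc Real.exp (c * l) * (6 * (1 + Real.log (3 * 7 ^ k)))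
        ≤ (Real.exp c * r ^ k) * (6 * (1 + Real.log (3 * 7 ^ k))) :=
          mul_le_mul_of_nonneg_right h5 (by positivity)
      _ = (6 * Real.exp c * (1 + Real.log (3 * 7 ^ k))) * r ^ k := by ring
      _ ≤ r ^ k * r ^ k := mul_le_mul_of_nonneg_right (h2.trans h3) hrk.le
  have hcardF : Real.exp (c * l) ≤ (Fs.card : ℝ) := hbig.trans ht
  have hne : 0 < Fs.card := by
    have : (0:ℝ) < Fs.card := lt_of_lt_of_le (Real.exp_pos _) hcardF
    exact_mod_cast this
  obtain ⟨f0, hf0⟩ := Finset.card_pos.1 hne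
  have ht3 : 3 ≤ t := by
    have h1 := hX3 f0
    have h2 : tr (wd k f0) = t := (Finset.mem_filter.1 hf0).2
    unfold tr at h2
    omega
  refine ⟨t ^ 2 - 4, not_square ht3, Fs.image X, ?_, ?_⟩
  · rw [Finset.card_image_of_injOn]
    · exact hcardF
    · intro f _ g _ hfg
      apply wd_inj k
      apply ev_inj (wd_ok k f) (wd_ok k g) (hX1 f) (by rw [wd_length, wd_length])
      rw [hX2 f, hfg, hX2 g]
  · intro x hx
    obtain ⟨f, hf, rfl⟩ := Finset.mem_image.1 hx
    have h2 : p' (wd k f) + q (wd k f) = t := (Finset.mem_filter.1 hf).2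
    refine ⟨hX1 f, ?_, wd k f, ?_, ?_, wd_ok k f, hX2 f⟩
    · have := hX4 f
      rw [h2] at this
      exact this
    · intro h0
      have := wd_length k f
      rw [h0] at this
      simp at this
      omega
    · rw [wd_length]; exact hkl

end Pool.Agent.W2helper40.CH
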