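import Pool.Agent.W2helper40.DZ.Basic

set_option autoImplicit false

/-!
# The sum of the reciprocals of the traces of the words of length `2 k` in the letters `1, 2`
-/

namespace Pool.Agent.W2helper40.CH

open Pool.Agent.W2helper40.DZ

/-- the letter -/
def letter (b : Bool) : ℕ := if b then 2 else 1

/-- the words -/
def wd : (k : ℕ) → (Fin k → Bool × Bool) → List ℕ
  | 0, _ => []
  | k + 1, f => letter (f 0).1 :: letter (f 0).2 :: wd k (Fin.tail f)

theorem letter_mem (b : Bool) : 1 ≤ letter b ∧ letter b ≤ 2 := by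
  cases b <;> simp [letter]

theorem wd_ok (k : ℕ) (f : Fin k → Bool × Bool) : Ok 2 (wd k f) := by
  induction k with
  | zero => intro a ha; simp [wd] at ha
  | succ k ih =>
    intro a ha
    simp only [wd, List.mem_cons] at ha
    rcases ha with rfl | rfl | ha
    · exact letter_mem _
    · exact letter_mem _
    · exact ih _ a ha

theorem wd_length (k : ℕ) (f : Fin k → Bool × Bool) : (wd k f).length = 2 * k := by
  induction k with
  | zero => rfl
  | succ k ih => simp only [wd, List.length_cons, ih]; ring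

theorem letter_inj {a b : Bool} (h : letter a = letter b) : a = b := by
  cases a <;> cases b <;> simp_all [letter]

theorem wd_inj (k : ℕ) : Function.Injective (wd k) := by
  induction k with
  | zero => intro f g _; exact Subsingleton.elim _ _
  | succ k ih =>
    intro f g h
    simp only [wd, List.cons.injEq] at h
    obtain ⟨h1, h2, h3⟩ := h
    rw [← Fin.cons_self_tail f, ← Fin.cons_self_tail g, ih h3]
    congr 1
    exact Prod.ext (letter_inj h1) (letter_inj h2)

/-- numerator and denominator of `[0; w + 9/25]` -/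
noncomputable def V (w : List ℕ) : ℝ × ℝ := F (9 / 25 : ℝ) 1 w

theorem V_cons (a : ℕ) (w : List ℕ) : V (a :: w) = ((V w).2, (a : ℝ) * (V w).2 + (V w).1) := rfl

theorem cone {w : List ℕ} (h : Ok 2 w) :
    1 ≤ (V w).2 ∧ (9 / 25 : ℝ) * (V w).2 ≤ (V w).1 ∧ (V w).1 ≤ (37 / 50 : ℝ) * (V w).2 := by
  induction w with
  | nil => simp [V, F]; norm_num
  | cons a w ih =>
    obtain ⟨h1, h2, h3⟩ := ih fun b hb => h b (by simp [hb])
    have ha := h a (by simp)
    have ha1 : (1:ℝ) ≤ a := by exact_mod_cast ha.1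
    have ha2 : (a:ℝ) ≤ 2 := by exact_mod_cast ha.2
    rw [V_cons]
    simp only
    refine ⟨?_, ?_, ?_⟩ <;> nlinarith

theorem V_two {a b : ℕ} {w : List ℕ} (h : Ok 2 w) (ha : 1 ≤ a) :
    (V (a :: b :: w)).2 ≤ ((a : ℝ) * b + 1 + a * (37 / 50)) * (V w).2 ∧
    (V (a :: b :: w)).2 = ((a : ℝ) * b + 1) * (V w).2 + a * (V w).1 := by
  have e : (V (a :: b :: w)).2 = ((a : ℝ) * b + 1) * (V w).2 + a * (V w).1 := by
    rw [V_cons, V_cons]
    ring
  refine ⟨?_, e⟩
  rw [e]
  have h3 := (cone h).2.2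
  have ha1 : (1:ℝ) ≤ a := by exact_mod_cast ha
  nlinarith

theorem sum_ge (k : ℕ) :
    (1009 / 1000 : ℝ) ^ k ≤ ∑ f : Fin k → Bool × Bool, 1 / (V (wd k f)).2 := by
  induction k with
  | zero => simp [wd, V, F]
  | succ k ih =>
    rw [← (Fin.consEquiv (fun _ => Bool × Bool)).sum_comp, Fintype.sum_prod_type_right, pow_succ']
    have key : ∀ g : Fin k → Bool × Bool, (1009 / 1000 : ℝ) * (1 / (V (wd k g)).2) ≤
        ∑ c : Bool × Bool, 1 / (V (wd (k + 1) (Fin.consEquiv (fun _ => Bool × Bool) (c, g)))).2 := by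
      intro g
      have hc : ∀ c : Bool × Bool, wd (k + 1) (Fin.consEquiv (fun _ => Bool × Bool) (c, g)) =
          letter c.1 :: letter c.2 :: wd k g := by
        intro c
        simp [wd, Fin.consEquiv]
      simp only [hc]
      have hok := wd_ok k g
      obtain ⟨h1, h2, h3⟩ := cone hok
      set w := wd k g
      have hQ : 0 < (V w).2 := by linarith
      have hone : ∀ a b : ℕ, 1 ≤ a → 1 ≤ b → (1 / ((a : ℝ) * b + 1 + a * (37 / 50))) * (1 / (V w).2) ≤
          1 / (V (a :: b :: w)).2 := by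
        intro a b ha hb
        obtain ⟨h4, h5⟩ := V_two (a := a) (b := b) hok ha
        have ha1 : (1:ℝ) ≤ a := by exact_mod_cast ha
        have hb1 : (1:ℝ) ≤ b := by exact_mod_cast hb
        have hpos : 0 < (V (a :: b :: w)).2 := by
          rw [h5]
          have : 0 ≤ (V w).1 := by nlinarith
          positivity
        rw [one_div_mul_one_div]
        exact one_div_le_one_div_of_le hpos h4
      have e11 := hone 1 1 le_rfl le_rfl
      have e12 := hone 1 2 le_rfl (by norm_num)
      have e21 := hone 2 1 (by norm_num) le_rfl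
      have e22 := hone 2 2 (by norm_num) (by norm_num)
      rw [Fintype.sum_prod_type]
      simp only [Fintype.sum_bool, letter]
      norm_num at e11 e12 e21 e22 ⊢
      have hinv : 0 < (V w).2⁻¹ := inv_pos.2 hQ
      nlinarith
    calc (1009 / 1000 : ℝ) * (1009 / 1000 : ℝ) ^ k
        ≤ (1009 / 1000 : ℝ) * ∑ f : Fin k → Bool × Bool, 1 / (V (wd k f)).2 := by
          exact mul_le_mul_of_nonneg_left ih (by norm_num)
      _ = ∑ f : Fin k → Bool × Bool, (1009 / 1000 : ℝ) * (1 / (V (wd k f)).2) := by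
          rw [Finset.mul_sum]
      _ ≤ _ := Finset.sum_le_sum fun g _ => key g

theorem V_le (k : ℕ) (f : Fin k → Bool × Bool) : (V (wd k f)).2 ≤ 7 ^ k := by
  induction k with
  | zero => simp [wd, V, F]
  | succ k ih =>
    have h := V_two (a := letter (f 0).1) (b := letter (f 0).2) (wd_ok k (Fin.tail f)) (letter_mem _).1
    have h1 := letter_mem (f 0).1
    have h2 := letter_mem (f 0).2
    have c1 := cone (wd_ok k (Fin.tail f))
    have i := ih (Fin.tail f)
    have a1 : ((letter (f 0).1 : ℕ) : ℝ) ≤ 2 := by exact_mod_cast h1.2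
    have a2 : ((letter (f 0).2 : ℕ) : ℝ) ≤ 2 := by exact_mod_cast h2.2
    have b1 : (1:ℝ) ≤ ((letter (f 0).1 : ℕ) : ℝ) := by exact_mod_cast h1.1
    have b2 : (1:ℝ) ≤ ((letter (f 0).2 : ℕ) : ℝ) := by exact_mod_cast h2.1
    show (V (letter (f 0).1 :: letter (f 0).2 :: wd k (Fin.tail f))).2 ≤ 7 ^ (k + 1)
    have h3 : ((letter (f 0).1 : ℕ) : ℝ) * (letter (f 0).2 : ℕ) + 1 + (letter (f 0).1 : ℕ) * (37 / 50)
        ≤ 7 := by nlinarith
    calc _ ≤ _ := h.1
      _ ≤ 7 * (V (wd k (Fin.tail f))).2 := mul_le_mul_of_nonneg_right h3 (by linarith)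
      _ ≤ 7 * 7 ^ k := by linarith
      _ = 7 ^ (k + 1) := by ring

/-- the trace -/
def tr (w : List ℕ) : ℕ := p' w + q w

theorem tr_le {w : List ℕ} (h : Ok 2 w) : (tr w : ℝ) ≤ 3 * (V w).2 := by
  have h1 := bounds h
  have h2 : tr w ≤ 3 * q w := by unfold tr; omega
  have h3 : (q w : ℝ) ≤ (V w).2 := by
    unfold V
    rw [(F_real _ _ w).2]
    have : (0:ℝ) ≤ (9 / 25 : ℝ) * q' w := by positivity
    linarith
  have h4 : (tr w : ℝ) ≤ 3 * q w := by exact_mod_cast h2
  linarith

end Pool.Agent.W2helper40.CH
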